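import Mathlib
import Pool.Agent.Bloch.Final

/-!
# Multiplication by inner functions in Bloch-type spaces

A continuity modulus `ω` has property (P) if and only if, near `0`,
`c (s / t) ≤ ω (s) / ω (t) ≤ C (s / t) ^ α` for all `s ≤ t`, with some `c, C, α > 0`.
Equivalently, `ω (t) / t` is almost decreasing near `0` and `∫_0^δ ω (t) / t dt ≤ K ω (δ)` for all
small `δ`.

Outline of the proof.
* Sufficiency.  (i) implies (iii) by integrating `|f| |Θ'| ≤ K ω (t) / t` along radii.  (ii)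
  implies (i): if the inner function `Θ` satisfies `|Θ| ≥ ε` on `𝔻 ∩ B (z, ρ)`, then
  `|Θ' (z)| ≤ 2 / (ε ρ)` (reflection in the circle; the extension is handled by averaging along
  the circle and Morera's theorem), and `|f (z) - f (w)| ≤ K ω (1 - |z| + |z - w|)`.
* Necessity of the lower bound: `f = 1`, `Θ = z`, and then `f = 1 - z` with a sparse Blaschke
  product.
* Necessity of the upper bound: there are long plateaus of `ω`.  In each of them one places a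
  Moebius copy of a block `(F, β)`: `F` is entire with small Bloch norm, large at `0`, but bounded
  by `3` on `{|β| < ε₀}`, where `β` is a finite Blaschke product with `|β (0)| ≤ q₀ < 1`.  The
  blocks come from a slowly varying lacunary random walk clamped at `± 1/2`.
-/

set_option autoImplicit false

namespace Pool.Agent.Results.MP_193109_an.Characterization

open Complex Metric Set Filter Topology MeasureTheory

/-- Continuity modulus: a continuous, non-decreasing, positive function on `(0, 1)`. -/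
def IsModulus (ω : ℝ → ℝ) : Prop :=
  ContinuousOn ω (Ioo 0 1) ∧ MonotoneOn ω (Ioo 0 1) ∧ ∀ t ∈ Ioo (0:ℝ) 1, 0 < ω t

/-- `f ∈ B_ω`: `f` is analytic in the unit disc and `|f' (z)| (1 - |z|) = O (ω (1 - |z|))` as
`|z| → 1`. -/
def MemB (ω : ℝ → ℝ) (f : ℂ → ℂ) : Prop :=
  DifferentiableOn ℂ f (ball 0 1) ∧ ∃ C : ℝ, ∃ r ∈ Ioo (0:ℝ) 1, ∀ z : ℂ, r < ‖z‖ → ‖z‖ < 1 →
    ‖deriv f z‖ * (1 - ‖z‖) ≤ C * ω (1 - ‖z‖)

/-- Inner functions: bounded analytic in the unit disc, with radial boundary values of modulus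
`1` almost everywhere. -/
def IsInner (Θ : ℂ → ℂ) : Prop :=
  DifferentiableOn ℂ Θ (ball 0 1) ∧ (∃ C : ℝ, ∀ z ∈ ball (0:ℂ) 1, ‖Θ z‖ ≤ C) ∧
  ∀ᵐ θ : ℝ, ∃ w : ℂ, ‖w‖ = 1 ∧
    Tendsto (fun r : ℝ => Θ ((r : ℂ) * Complex.exp ((θ : ℂ) * I))) (𝓝[<] 1) (𝓝 w)

/-- `S_ε (f, Θ) < ∞`: the quotients `|f (z)| / ω (1 - |z|)`, `z ∈ 𝔻 ∖ {0}`, `|Θ (z)| < ε`, are
bounded above. -/
def SFinite (ω : ℝ → ℝ) (f Θ : ℂ → ℂ) (ε : ℝ) : Prop :=
  BddAbove ((fun z : ℂ => ‖f z‖ / ω (1 - ‖z‖)) '' {z : ℂ | z ≠ 0 ∧ ‖z‖ < 1 ∧ ‖Θ z‖ < ε})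

/-- Property (P): for all `f ∈ B_ω` and inner `Θ`, the conditions (i) `f Θ ∈ B_ω`,
(ii) `S_ε (f, Θ) < ∞` for some `ε ∈ (0, 1)`, (iii) `S_ε (f, Θ) < ∞` for all `ε ∈ (0, 1)` are
equivalent. -/
def PropertyP (ω : ℝ → ℝ) : Prop :=
  ∀ f : ℂ → ℂ, MemB ω f → ∀ Θ : ℂ → ℂ, IsInner Θ →
    (MemB ω (fun z => f z * Θ z) ↔ ∃ ε ∈ Ioo (0:ℝ) 1, SFinite ω f Θ ε) ∧
    ((∃ ε ∈ Ioo (0:ℝ) 1, SFinite ω f Θ ε) ↔ ∀ ε ∈ Ioo (0:ℝ) 1, SFinite ω f Θ ε)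

/-- Two-sided power condition near `0`. -/
def TwoSidedPower (ω : ℝ → ℝ) : Prop :=
  ∃ c C α t₀ : ℝ, 0 < c ∧ 0 < α ∧ 0 < t₀ ∧ t₀ < 1 ∧ ∀ s t : ℝ, 0 < s → s ≤ t → t ≤ t₀ →
    c * (s / t) ≤ ω s / ω t ∧ ω s / ω t ≤ C * (s / t) ^ α

/-- `ω (t) / t` is almost decreasing near `0`. -/
def AlmostDecreasingQuotient (ω : ℝ → ℝ) : Prop :=
  ∃ K t₀ : ℝ, 0 < t₀ ∧ t₀ < 1 ∧ ∀ s t : ℝ, 0 < s → s ≤ t → t ≤ t₀ → ω t / t ≤ K * (ω s / s)

/-- `ω` is fast: `∫_0^δ ω (t) / t dt ≤ K ω (δ)` for all small `δ`. -/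
def Fast (ω : ℝ → ℝ) : Prop :=
  ∃ K t₀ : ℝ, 0 < t₀ ∧ t₀ < 1 ∧ ∀ δ : ℝ, 0 < δ → δ ≤ t₀ →
    ∫⁻ t in Ioc 0 δ, ENNReal.ofReal (ω t / t) ≤ ENNReal.ofReal (K * ω δ)

/-- Determination of all continuity moduli with property (P). -/
theorem result (ω : ℝ → ℝ) (hω : IsModulus ω) :
    (PropertyP ω ↔ TwoSidedPower ω) ∧
    (PropertyP ω ↔ (AlmostDecreasingQuotient ω ∧ Fast ω)) := by
  have h1 : PropertyP ω ↔ TwoSidedPower ω := BlochMult.propP_iff hω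
  have h2 : TwoSidedPower ω ↔ (AlmostDecreasingQuotient ω ∧ Fast ω) := BlochMult.twoSided_iff hω
  exact ⟨h1, h1.trans h2⟩

end Pool.Agent.Results.MP_193109_an.Characterization
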